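import Pool.Agent.Helper74.HG.GoalsB

/-!
# Packet HG-ZLF (MP_aa7fc1_ag): the topological zeta function of `l f`

`l f` is the product of `f` with a new variable `l`.  The zeta function of `l` at the origin is
`1 / (s + 1)`: for `m ≥ 1` there are `q - 1` arcs `c t^m` of order exactly `m`.
-/

namespace Pool.Agent.Helper59.HG.ZLF

open MvPolynomial Pool.Agent.Helper74.HG

theorem mk_zero (K : Type) [Field K] (m : ℕ) (p : Polynomial K) :
    (Ideal.Quotient.mk (Ideal.span {(Polynomial.X : Polynomial K) ^ (m + 1)}) p : Tr K m) = 0 ↔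
      Polynomial.X ^ (m + 1) ∣ p := by
  rw [Ideal.Quotient.eq_zero_iff_mem, Ideal.mem_span_singleton]

/-- the arc `c t^m` -/
noncomputable def ct (K : Type) [Field K] (m : ℕ) (c : K) : Unit → Tr K m :=
  fun _ => Ideal.Quotient.mk _ (Polynomial.X ^ m * Polynomial.C c)

theorem ct_zero_iff (K : Type) [Field K] (m : ℕ) (c : K) : ct K m c () = 0 ↔ c = 0 := by
  unfold ct
  rw [mk_zero, pow_succ,
    mul_dvd_mul_iff_left (pow_ne_zero _ (Polynomial.X_ne_zero (R := K))), Polynomial.X_dvd_iff,
    Polynomial.coeff_C_zero]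

theorem ct_inj (K : Type) [Field K] (m : ℕ) : Function.Injective (ct K m) := by
  intro c d h
  have h1 : ct K m c () - ct K m d () = 0 := sub_eq_zero.2 (congrFun h ())
  have h2 : ct K m c () - ct K m d () = ct K m (c - d) () := by
    unfold ct
    rw [← map_sub, ← mul_sub, ← map_sub]
  rw [h2, ct_zero_iff] at h1
  exact sub_eq_zero.1 h1

/-- the arcs of order exactly `m`, `m ≥ 1`, of a variable -/
theorem jet_X (K : Type) [Field K] (m : ℕ) (hm : m ≠ 0) :
    JetK K (X () : MvPolynomial Unit K) m = ct K m '' {c : K | c ≠ 0} := by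
  ext x
  constructor
  · rintro ⟨-, h2, h3⟩
    rw [aeval_X] at h2 h3
    obtain ⟨p, hp⟩ := Ideal.Quotient.mk_surjective (x ())
    rw [← hp, tt, ← map_mul, mk_zero, pow_succ', mul_dvd_mul_iff_left Polynomial.X_ne_zero] at h2
    obtain ⟨r, hr⟩ := h2
    have hx : x = ct K m (r.coeff 0) := by
      funext u
      have hu : x u = x () := rfl
      rw [hu, ← hp]
      unfold ct
      rw [Ideal.Quotient.eq, Ideal.mem_span_singleton, hr, ← mul_sub, pow_succ,
        mul_dvd_mul_iff_left (pow_ne_zero _ (Polynomial.X_ne_zero (R := K))),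
        Polynomial.X_dvd_iff, Polynomial.coeff_sub, Polynomial.coeff_C_zero, sub_self]
    refine ⟨r.coeff 0, ?_, hx.symm⟩
    intro h0
    apply h3
    rw [hx]
    exact (ct_zero_iff K m _).2 h0
  · rintro ⟨c, hc, rfl⟩
    refine ⟨?_, ?_, ?_⟩
    · intro i
      rw [Ideal.mem_span_singleton]
      refine ⟨Ideal.Quotient.mk _ (Polynomial.X ^ (m - 1) * Polynomial.C c), ?_⟩
      unfold ct tt
      rw [← map_mul, ← mul_assoc, ← pow_succ', Nat.sub_add_cancel (Nat.one_le_iff_ne_zero.2 hm)]
    · rw [aeval_X]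
      unfold ct tt
      rw [← map_mul, mk_zero, ← mul_assoc, ← pow_succ']
      exact dvd_mul_right _ _
    · rw [aeval_X]
      exact fun h => hc ((ct_zero_iff K m c).1 h)

theorem jet_X_zero (K : Type) [Field K] : JetK K (X () : MvPolynomial Unit K) 0 = ∅ := by
  rw [Set.eq_empty_iff_forall_notMem]
  rintro x ⟨h1, -, h3⟩
  apply h3
  rw [aeval_X]
  obtain ⟨y, hy⟩ := Ideal.mem_span_singleton.1 (h1 ())
  have h0 : tt K 0 = 0 := by
    unfold tt
    rw [mk_zero, zero_add, pow_one]
  rw [hy, h0, zero_mul]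

theorem cnt_X (K : Type) [Field K] [Finite K] (m : ℕ) :
    (cntK K (X () : MvPolynomial Unit K) m : ℂ) = if m = 0 then 0 else (Nat.card K : ℂ) - 1 := by
  unfold cntK
  split_ifs with h
  · subst h
    rw [jet_X_zero, Set.ncard_empty, Nat.cast_zero]
  · rw [jet_X K m h, Set.ncard_image_of_injective _ (ct_inj K m)]
    have h1 : {c : K | c ≠ 0} = ({0} : Set K)ᶜ := rfl
    have h2 := Set.ncard_add_ncard_compl ({0} : Set K)
    rw [Set.ncard_singleton] at h2
    rw [h1, ← h2]
    push_cast
    ring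

/-- the zeta function of a variable -/
theorem isZ_X : IsZ (X () : MvPolynomial Unit ℂ) (RatFunc.X + 1)⁻¹ := by
  refine ⟨∅, X (), [(1, [(1, 1)])], ?_, ?_, ?_, ?_⟩
  · rw [map_X]
  · intro S hS d hd
    rw [List.mem_singleton] at hS
    subst hS
    rw [List.mem_singleton] at hd
    subst hd
    exact ⟨one_pos, one_pos⟩
  · intro K _ _ ψ
    refine ⟨[(fun _ => 1, (1, [(1, 1)]))], by simp, ?_, ?_⟩
    · intro T hT
      rw [List.mem_singleton] at hT
      subst hT
      exact ⟨1, fun _ => 1, fun _ => 1, fun _ => one_ne_zero, fun e _ => by simp, by simp⟩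
    · intro E _ _ _ m
      rw [map_X, map_X, cnt_X, Fintype.card_unit, one_mul]
      simp only [List.map_cons, List.map_nil, List.prod_cons, List.prod_nil, mul_one,
        List.sum_cons, List.sum_nil, add_zero, map_one, one_mul]
      unfold fac
      rw [PowerSeries.coeff_mk]
      simp only [Nat.div_one, one_mul, one_dvd, and_true]
      by_cases h : m = 0
      · simp [h]
      · rw [if_neg h, if_pos h, div_eq_mul_inv]
  · simp [ratS]

/-- `Unit ⊕ σ ≃ Option σ` -/
def eqv (σ : Type) : Unit ⊕ σ ≃ Option σ where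
  toFun := Sum.elim (fun _ => none) some
  invFun := fun z => match z with
    | none => Sum.inl ()
    | some a => Sum.inr a
  left_inv := by
    rintro (⟨⟩ | x) <;> rfl
  right_inv := by
    rintro (_ | a) <;> rfl

theorem pres_rename {σ τ : Type} (e : σ ≃ τ) : PresC (renameEquiv ℂ e) := by
  intro i
  rw [renameEquiv_apply, rename_X, constantCoeff_X]

/-- **ZLF.** -/
theorem t (hp : ZPR) (hi : ZIS) : Pool.Agent.Helper74.HG.ZLF := by
  intro σ _ f Z hZ
  have h1 := hp (X () : MvPolynomial Unit ℂ) f _ _ isZ_X hZ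
  have h2 := hi (renameEquiv ℂ (eqv σ)) (pres_rename _) _ _ h1
  have e : renameEquiv ℂ (eqv σ) (rename Sum.inl (X () : MvPolynomial Unit ℂ) *
      rename Sum.inr f) = lf f := by
    unfold lf
    rw [map_mul, renameEquiv_apply, renameEquiv_apply, rename_X, rename_X, rename_rename]
    rfl
  rw [e] at h2
  exact h2

end Pool.Agent.Helper59.HG.ZLF
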